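import Mathlib

/-!
# Sign patterns of weighted partition sums with factorial parts: part (ii) fails for `m = 3`, `k = 2`

For `n = 12 q + 2` the sum `S_{U_3, 2}(n)` is negative for all `q ≥ 10`, although `n` is even.
-/

namespace Pool.Agent.Results.MP_e74e95_nt.PartTwoFails

open Finset

/-- `c_A(i, n)`: the number of `A`-partitions of `n` with exactly `i` parts, i.e. of multisets of `i`
elements of `A` with sum `n`. -/
noncomputable def cA (A : Set ℕ) (i n : ℕ) : ℕ :=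
  Set.ncard {s : Multiset ℕ | (∀ a ∈ s, a ∈ A) ∧ s.sum = n ∧ Multiset.card s = i}

/-- `S_{A,k}(n) = ∑_{i=0}^n (-1) ^ i i ^ k c_A(i, n)` (with `0 ^ 0 = 1`). -/
noncomputable def S (A : Set ℕ) (k n : ℕ) : ℤ :=
  ∑ i ∈ Finset.range (n + 1), (-1) ^ i * (i : ℤ) ^ k * (cA A i n : ℤ)

/-- `U_m = {1!, 2!, …, m!}`. -/
def U (m : ℕ) : Set ℕ := {a | ∃ j : ℕ, 1 ≤ j ∧ j ≤ m ∧ a = j.factorial}

theorem mem_U3 (a : ℕ) : a ∈ U 3 ↔ a = 1 ∨ a = 2 ∨ a = 6 := by
  unfold U
  simp only [Set.mem_ofPred_eq]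
  constructor
  · rintro ⟨j, h1, h3, rfl⟩
    interval_cases j <;> decide
  · rintro (rfl | rfl | rfl)
    · exact ⟨1, by norm_num, by norm_num, rfl⟩
    · exact ⟨2, by norm_num, by norm_num, rfl⟩
    · exact ⟨3, by norm_num, by norm_num, rfl⟩

/-- the multiset with `x` ones, `y` twos and `z` sixes -/
def ms (x y z : ℕ) : Multiset ℕ :=
  Multiset.replicate x 1 + (Multiset.replicate y 2 + Multiset.replicate z 6)

theorem card_ms (x y z : ℕ) : Multiset.card (ms x y z) = x + (y + z) := by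
  simp [ms]

theorem sum_ms (x y z : ℕ) : (ms x y z).sum = x + (2 * y + 6 * z) := by
  simp [ms, mul_comm]

theorem count_two_ms (x y z : ℕ) : (ms x y z).count 2 = y := by
  simp [ms, Multiset.count_replicate]

theorem count_six_ms (x y z : ℕ) : (ms x y z).count 6 = z := by
  simp [ms, Multiset.count_replicate]

theorem eq_ms (s : Multiset ℕ) (hs : ∀ a ∈ s, a ∈ U 3) :
    s = ms (s.count 1) (s.count 2) (s.count 6) := by
  ext a
  by_cases ha : a ∈ s
  · have h := (mem_U3 a).1 (hs a ha)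
    rcases h with rfl | rfl | rfl <;> simp [ms, Multiset.count_replicate]
  · rw [Multiset.count_eq_zero_of_notMem ha]
    unfold ms
    rw [Multiset.count_add, Multiset.count_add, Multiset.count_replicate, Multiset.count_replicate,
      Multiset.count_replicate]
    split_ifs with h1 h2 h3 <;> try subst_vars
    all_goals first
      | rfl
      | (simp_all)

/-- the index set of the partitions of `n` into ones, twos and sixes -/
def idx (n : ℕ) : Finset (ℕ × ℕ) :=
  (Finset.range (n + 1) ×ˢ Finset.range (n + 1)).filter fun p => 2 * p.1 + 6 * p.2 ≤ n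

theorem mem_idx (n : ℕ) (p : ℕ × ℕ) : p ∈ idx n ↔ 2 * p.1 + 6 * p.2 ≤ n := by
  unfold idx
  rw [Finset.mem_filter, Finset.mem_product, Finset.mem_range, Finset.mem_range]
  constructor
  · exact fun h => h.2
  · intro h
    refine ⟨⟨?_, ?_⟩, h⟩ <;> omega

theorem cA_eq (i n : ℕ) : cA (U 3) i n =
    ((idx n).filter fun p => n - p.1 - 5 * p.2 = i).card := by
  unfold cA
  have h : {s : Multiset ℕ | (∀ a ∈ s, a ∈ U 3) ∧ s.sum = n ∧ Multiset.card s = i} =
      (fun p : ℕ × ℕ => ms (n - 2 * p.1 - 6 * p.2) p.1 p.2) ''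
        (((idx n).filter fun p => n - p.1 - 5 * p.2 = i : Finset (ℕ × ℕ)) : Set (ℕ × ℕ)) := by
    ext s
    simp only [Set.mem_ofPred_eq, Set.mem_image, Finset.coe_filter, mem_idx]
    constructor
    · rintro ⟨h1, h2, h3⟩
      have h4 := eq_ms s h1
      have h5 : s.sum = s.count 1 + (2 * s.count 2 + 6 * s.count 6) := by
        conv_lhs => rw [h4]
        rw [sum_ms]
      have h6 : Multiset.card s = s.count 1 + (s.count 2 + s.count 6) := by
        conv_lhs => rw [h4]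
        rw [card_ms]
      refine ⟨(s.count 2, s.count 6), ⟨by simp only; omega, by simp only; omega⟩, ?_⟩
      simp only
      have h7 : n - 2 * s.count 2 - 6 * s.count 6 = s.count 1 := by omega
      rw [h7]
      exact h4.symm
    · rintro ⟨p, ⟨h1, h2⟩, rfl⟩
      refine ⟨?_, ?_, ?_⟩
      · intro a ha
        unfold ms at ha
        rw [mem_U3]
        rw [Multiset.mem_add, Multiset.mem_add] at ha
        rcases ha with ha | ha | ha
        · exact Or.inl (Multiset.eq_of_mem_replicate ha)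
        · exact Or.inr (Or.inl (Multiset.eq_of_mem_replicate ha))
        · exact Or.inr (Or.inr (Multiset.eq_of_mem_replicate ha))
      · rw [sum_ms]; omega
      · rw [card_ms]; omega
  rw [h, Set.InjOn.ncard_image, Set.ncard_coe_finset]
  intro p _ p' _ heq
  simp only at heq
  have h1 := congrArg (Multiset.count 2) heq
  have h2 := congrArg (Multiset.count 6) heq
  rw [count_two_ms, count_two_ms] at h1
  rw [count_six_ms, count_six_ms] at h2
  exact Prod.ext h1 h2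

theorem S_eq (k n : ℕ) : S (U 3) k n =
    ∑ p ∈ idx n, (-1) ^ (n - p.1 - 5 * p.2) * ((n - p.1 - 5 * p.2 : ℕ) : ℤ) ^ k := by
  unfold S
  rw [← Finset.sum_fiberwise_of_maps_to (s := idx n) (t := Finset.range (n + 1))
    (g := fun p => n - p.1 - 5 * p.2) (fun p _ => Finset.mem_range.2 (by omega))]
  refine Finset.sum_congr rfl fun i _ => ?_
  rw [cA_eq, Finset.card_eq_sum_ones, Nat.cast_sum, Finset.mul_sum]
  refine Finset.sum_congr rfl fun p hp => ?_
  rw [Finset.mem_filter] at hp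
  rw [hp.2]
  simp

theorem S_eq' (q : ℕ) : S (U 3) 2 (12 * q + 2) =
    ∑ z ∈ Finset.range (2 * q + 1), ∑ y ∈ Finset.range (6 * q + 2 - 3 * z),
      (-1) ^ (y + z) * (((12 * q + 2 : ℤ) - 5 * z) - y) ^ 2 := by
  rw [S_eq]
  rw [Finset.sum_sigma']
  refine Finset.sum_bij' (fun p _ => ⟨p.2, p.1⟩) (fun p _ => (p.2, p.1)) ?_ ?_ ?_ ?_ ?_
  · intro p hp
    rw [mem_idx] at hp
    simp only [Finset.mem_sigma, Finset.mem_range]
    omega
  · intro p hp
    simp only [Finset.mem_sigma, Finset.mem_range] at hp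
    rw [mem_idx]
    simp only
    omega
  · intro p _
    rfl
  · intro p _
    rfl
  · intro p hp
    rw [mem_idx] at hp
    simp only
    have h1 : p.1 + 5 * p.2 ≤ 12 * q + 2 := by omega
    have h2 : ((12 * q + 2 - p.1 - 5 * p.2 : ℕ) : ℤ) = (12 * q + 2 : ℤ) - 5 * p.2 - p.1 := by
      rw [Nat.sub_sub, Nat.cast_sub h1]
      push_cast
      ring
    rw [h2]
    congr 1
    have h3 : 12 * q + 2 - p.1 - 5 * p.2 + (p.1 + p.2) + 4 * p.2 = 2 * (6 * q + 1) := by omega
    have h4 : (-1 : ℤ) ^ (12 * q + 2 - p.1 - 5 * p.2) * (-1) ^ (p.1 + p.2) = 1 := by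
      have h5 : (-1 : ℤ) ^ (12 * q + 2 - p.1 - 5 * p.2 + (p.1 + p.2) + 4 * p.2) = 1 := by
        rw [h3, pow_mul]; norm_num
      rw [pow_add, pow_add, pow_mul] at h5
      norm_num at h5
      exact h5
    have h6 : (-1 : ℤ) ^ (p.1 + p.2) * (-1) ^ (p.1 + p.2) = 1 := by
      rw [← mul_pow]; norm_num
    calc (-1 : ℤ) ^ (12 * q + 2 - p.1 - 5 * p.2)
        = (-1) ^ (12 * q + 2 - p.1 - 5 * p.2) * ((-1) ^ (p.1 + p.2) * (-1) ^ (p.1 + p.2)) := by
          rw [h6, mul_one]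
      _ = (-1) ^ (p.1 + p.2) := by rw [← mul_assoc, h4, one_mul]

theorem alt_one (c : ℤ) (M : ℕ) :
    2 * ∑ y ∈ Finset.range (M + 1), (-1) ^ y * (c - y) ^ 2 =
      c * (c + 1) + (-1) ^ M * ((c - M - 1) * (c - M)) := by
  induction M with
  | zero => simp; ring
  | succ M ih =>
    rw [Finset.sum_range_succ, mul_add, ih, pow_succ]
    push_cast
    ring

theorem alt_two (c : ℤ) (M : ℕ) :
    4 * ∑ z ∈ Finset.range (M + 1), (-1) ^ z * ((c - 5 * z) * (c - 5 * z + 1)) =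
      (2 * c ^ 2 + 12 * c + 5) + (-1) ^ M *
        (2 * (c - 5 * (M + 1)) ^ 2 + 12 * (c - 5 * (M + 1)) + 5) := by
  induction M with
  | zero => simp; ring
  | succ M ih =>
    rw [Finset.sum_range_succ, mul_add, ih, pow_succ]
    push_cast
    ring

theorem S_neg (q : ℕ) (hq : 10 ≤ q) : S (U 3) 2 (12 * q + 2) < 0 := by
  have h1 : 2 * S (U 3) 2 (12 * q + 2) =
      ∑ z ∈ Finset.range (2 * q + 1), ((-1) ^ z * (((12 * q + 2 : ℤ) - 5 * z) *
        ((12 * q + 2 : ℤ) - 5 * z + 1)) - (6 * q - 2 * z) * (6 * q - 2 * z + 1)) := by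
    rw [S_eq', Finset.mul_sum]
    refine Finset.sum_congr rfl fun z hz => ?_
    rw [Finset.mem_range] at hz
    have h2 : 6 * q + 2 - 3 * z = (6 * q + 1 - 3 * z) + 1 := by omega
    have h3 := alt_one ((12 * q + 2 : ℤ) - 5 * z) (6 * q + 1 - 3 * z)
    have h4 : ((6 * q + 1 - 3 * z : ℕ) : ℤ) = 6 * q + 1 - 3 * z := by
      rw [Nat.cast_sub (by omega)]
      push_cast
      ring
    have h5 : (-1 : ℤ) ^ (6 * q + 1 - 3 * z) = -(-1) ^ z := by
      have h6 : 6 * q + 1 - 3 * z + z + 2 * z = 2 * (3 * q) + 1 := by omega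
      have h7 : (-1 : ℤ) ^ (6 * q + 1 - 3 * z + z + 2 * z) = -1 := by
        rw [h6, pow_succ, pow_mul]; norm_num
      rw [pow_add, pow_add, pow_mul] at h7
      norm_num at h7
      have h8 : (-1 : ℤ) ^ z * (-1) ^ z = 1 := by
        rw [← mul_pow]; norm_num
      calc (-1 : ℤ) ^ (6 * q + 1 - 3 * z)
          = (-1) ^ (6 * q + 1 - 3 * z) * ((-1) ^ z * (-1) ^ z) := by rw [h8, mul_one]
        _ = -(-1) ^ z := by rw [← mul_assoc, h7]; ring
    have h9 : 2 * ∑ y ∈ Finset.range (6 * q + 2 - 3 * z),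
        (-1) ^ (y + z) * (((12 * q + 2 : ℤ) - 5 * z) - y) ^ 2 =
        (-1) ^ z * (2 * ∑ y ∈ Finset.range (6 * q + 1 - 3 * z + 1),
          (-1) ^ y * (((12 * q + 2 : ℤ) - 5 * z) - y) ^ 2) := by
      rw [h2, mul_left_comm ((-1 : ℤ) ^ z)]
      congr 1
      rw [Finset.mul_sum]
      refine Finset.sum_congr rfl fun y _ => ?_
      rw [pow_add]
      ring
    rw [h9, h3, h5, h4]
    have h8 : (-1 : ℤ) ^ z * (-1) ^ z = 1 := by
      rw [← mul_pow]; norm_num
    linear_combination (-(6 * (q : ℤ) - 2 * z) * (6 * q - 2 * z + 1)) * h8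
  rw [Finset.sum_sub_distrib] at h1
  have h2 := alt_two (12 * q + 2) (2 * q)
  have h3 : (-1 : ℤ) ^ (2 * q) = 1 := by rw [pow_mul]; norm_num
  rw [h3, one_mul] at h2
  push_cast at h2
  have h4 : ∑ z ∈ Finset.range (2 * q + 1), ((2 * q : ℤ) * (2 * q + 1)) ≤
      ∑ z ∈ Finset.range (2 * q + 1), ((6 * q - 2 * z : ℤ) * (6 * q - 2 * z + 1)) := by
    refine Finset.sum_le_sum fun z hz => ?_
    rw [Finset.mem_range] at hz
    have h5 : (z : ℤ) ≤ 2 * q := by omega
    have h6 : (0 : ℤ) ≤ q := by omega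
    nlinarith
  rw [Finset.sum_const, Finset.card_range, nsmul_eq_mul] at h4
  push_cast at h4
  have hq' : (10 : ℤ) ≤ q := by exact_mod_cast hq
  nlinarith [mul_self_nonneg ((q : ℤ) - 10), mul_nonneg (sub_nonneg.2 hq') (mul_self_nonneg (q : ℤ)),
    mul_nonneg (sub_nonneg.2 hq') (sub_nonneg.2 hq')]

/-- Part (ii) of the conjecture fails for `m = 3` and `k = 2`: the number `(-1) ^ n S_{U_3, 2}(n)` is negative
for infinitely many `n`. Hence it is not true that for every `m ≥ 2` both (i) and (ii) hold. -/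
theorem result : {n : ℕ | (-1) ^ n * S (U 3) 2 n < 0}.Infinite ∧
    ¬ ∀ m : ℕ, 2 ≤ m →
      (∀ k : ℕ, k + 2 ≤ m → ∃ N : ℕ, ∀ n : ℕ, N ≤ n → 0 ≤ (-1) ^ ((n + 1) / 2) * S (U m) k n) ∧
      (∀ k : ℕ, m ≤ k + 1 → ∃ N : ℕ, ∀ n : ℕ, N ≤ n → 0 ≤ (-1) ^ n * S (U m) k n) := by
  have h1 : ∀ q : ℕ, 10 ≤ q → (-1) ^ (12 * q + 2) * S (U 3) 2 (12 * q + 2) < 0 := by
    intro q hq
    have h2 : (-1 : ℤ) ^ (12 * q + 2) = 1 := by
      rw [show 12 * q + 2 = 2 * (6 * q + 1) by ring, pow_mul]; norm_num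
    rw [h2, one_mul]
    exact S_neg q hq
  constructor
  · rw [Set.infinite_iff_exists_gt]
    intro n
    exact ⟨12 * (n + 10) + 2, h1 (n + 10) (by omega), by omega⟩
  · intro h
    obtain ⟨N, hN⟩ := (h 3 (by norm_num)).2 2 (by norm_num)
    have h2 := hN (12 * (N + 10) + 2) (by omega)
    exact absurd (h1 (N + 10) (by omega)) (not_lt.2 h2)

end Pool.Agent.Results.MP_e74e95_nt.PartTwoFails
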